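import Pool.Agent.W761.CC.LayS
import Pool.Agent.W571.CB.La

/-!
# CC-LE: the energy and the averages over isolated cubes
-/

set_option autoImplicit false

open MeasureTheory Pool.Agent.W761.CB Pool.Agent.W761.CC
open scoped ENNReal

namespace Pool.Agent.W431.CC.LE

section gen

variable {X : Type} [MeasurableSpace X] (ν : Measure X) [IsFiniteMeasure ν]

set_option maxHeartbeats 4000000 in
/-- the potential energy as an integral over configurations -/
lemma vp_eq {F : Multiset X → ℂ} (hF : EB F) (V : X → X → ℝ≥0∞)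
    (hvm : Measurable fun p : X × X => V p.1 p.2) :
    (Measurable fun γ : Cf X =>
      ((ms γ).map fun y => ∫⁻ x, V x y * ‖F (x ::ₘ ms γ)‖ₑ ^ 2 ∂ν).sum) ∧
    ∫⁻ γ, ((ms γ).map fun y => ∫⁻ x, V x y * ‖F (x ::ₘ ms γ)‖ₑ ^ 2 ∂ν).sum ∂(lam ν) =
      ∫⁻ x, ∫⁻ y, V x y * nE ν (an y (an x F)) ∂ν ∂ν := by
  have hfin : IsFiniteMeasure (lam ν) := (Pool.Agent.W571.CB.La.slam X ν).2.1
  obtain ⟨-, -, -, -, hF2, hF3, -, -, -, -, hF4, -⟩ := Pool.Agent.W571.CB.La.ebc X ν F F hF hF
  set Ψ : X → Multiset X → ℝ≥0∞ := fun y S =>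
    ∫⁻ x, V x y * ‖F (x ::ₘ S)‖ₑ ^ 2 ∂ν with hΨ
  have hΨm : Measurable (fun p : X × Cf X => Ψ p.1 (ms p.2)) := by
    simp only [hΨ]
    refine Measurable.lintegral_prod_right' (f := fun q : (X × Cf X) × X =>
      V q.2 q.1.1 * ‖F (q.2 ::ₘ ms q.1.2)‖ₑ ^ 2) ?_
    refine Measurable.mul ?_ ?_
    · have h1 : Measurable (fun q : (X × Cf X) × X => ((q.2, q.1.1) : X × X)) :=
        measurable_snd.prodMk (measurable_fst.comp measurable_fst)
      exact hvm.comp h1
    · have h1 : Measurable (fun q : (X × Cf X) × X => ((q.2, q.1.2) : X × Cf X)) :=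
        measurable_snd.prodMk (measurable_snd.comp measurable_fst)
      exact (hF2.comp h1).enorm.pow_const 2
  have hsum : Measurable fun γ : Cf X => ((ms γ).map fun y => Ψ y (ms γ)).sum := by
    have h1 := Pool.Agent.W975.CB.sum_meas (X := X) (Z := ℝ≥0∞) (Cf X)
      (fun γ y => Ψ y (ms γ)) (hΨm.comp measurable_swap)
    have h2 : Measurable fun γ : Cf X => ((γ, γ) : Cf X × Cf X) := measurable_id.prodMk measurable_id
    have h3 := h1.comp h2
    simp only [Function.comp_def] at h3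
    exact h3
  refine ⟨hsum, ?_⟩
  rw [Pool.Agent.W571.CB.La.mecke X ν Ψ hΨm]
  have e2 : ∀ y, ∫⁻ γ, Ψ y (y ::ₘ ms γ) ∂(lam ν) = ∫⁻ x, V x y * nE ν (an y (an x F)) ∂ν := by
    intro y
    simp only [hΨ]
    rw [lintegral_lintegral_swap]
    · refine lintegral_congr fun x => ?_
      unfold nE an
      rw [lintegral_const_mul]
      exact (hF3.comp (measurable_prodMk_left (x := ((x, y) : X × X)))).enorm.pow_const 2
    · refine Measurable.aemeasurable ?_
      refine Measurable.mul ?_ ?_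
      · have h1 : Measurable (fun q : Cf X × X => ((q.2, y) : X × X)) :=
          measurable_snd.prodMk measurable_const
        exact hvm.comp h1
      · have h1 : Measurable (fun q : Cf X × X => (((q.2, y), q.1) : (X × X) × Cf X)) :=
          (measurable_snd.prodMk measurable_const).prodMk measurable_fst
        exact (hF3.comp h1).enorm.pow_const 2
  simp only [e2]
  rw [lintegral_lintegral_swap]
  refine Measurable.aemeasurable ?_
  exact (hvm.comp measurable_swap).mul (hF4.comp measurable_swap)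

omit [MeasurableSpace X] in
lemma sum_le_of_nodup {G : Finset X} {S : Multiset X} (h : ∀ y ∈ G, y ∈ S) (g : X → ℝ≥0∞) :
    ∑ y ∈ G, g y ≤ (S.map g).sum := by
  have h1 : G.val ≤ S := (Multiset.le_iff_subset G.nodup).2 fun y hy => h y hy
  obtain ⟨u, hu⟩ := Multiset.le_iff_exists_add.1 h1
  rw [hu, Multiset.map_add, Multiset.sum_add]
  exact le_self_add

omit [MeasurableSpace X] in
lemma mem_iso {B D : Set X} {near : X → X → Prop} {S : Multiset X} {y : X}
    (h : y ∈ iso B D near S) : y ∈ S ∧ y ∈ D ∧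
      ∀ y' ∈ S, y' ∈ B → near y y' → D ⊆ B → near y y → y' = y := by
  classical
  unfold iso at h
  rw [Multiset.mem_filter] at h
  refine ⟨h.1, h.2.1, fun y' hy' hB hn hDB hyy => ?_⟩
  by_contra hne
  have h2 : ({y, y'} : Multiset X) ≤ S.filter fun z => z ∈ B ∧ near y z := by
    rw [Multiset.le_iff_subset]
    · intro z hz
      rw [Multiset.mem_filter]
      simp only [Multiset.insert_eq_cons, Multiset.mem_cons, Multiset.mem_singleton] at hz
      rcases hz with rfl | rfl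
      · exact ⟨h.1, hDB h.2.1, hyy⟩
      · exact ⟨hy', hB, hn⟩
    · simp only [Multiset.insert_eq_cons, Multiset.nodup_cons, Multiset.mem_singleton,
        Multiset.nodup_singleton, and_true]
      exact fun h => hne h.symm
  have h3 := Multiset.card_le_card h2
  have h4 := h.2.2
  simp only [Multiset.insert_eq_cons, Multiset.card_cons, Multiset.card_singleton] at h3
  have h5 : Multiset.card (S.filter fun z => z ∈ B ∧ near y z) ≤ 1 := by
    convert h4
  omega

omit [MeasurableSpace X] in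
lemma nodup_iso {B D : Set X} {near : X → X → Prop} {S : Multiset X} (hDB : D ⊆ B)
    (hyy : ∀ y, near y y) : (iso B D near S).Nodup := by
  classical
  rw [Multiset.nodup_iff_count_le_one]
  intro y
  by_cases hy : y ∈ iso B D near S
  · have h := hy
    unfold iso at h
    rw [Multiset.mem_filter] at h
    have h1 : Multiset.count y (iso B D near S) ≤ Multiset.count y S := by
      unfold iso
      exact Multiset.count_le_of_le _ (Multiset.filter_le _ _)
    have h2 : Multiset.count y S ≤ Multiset.card (S.filter fun z => z ∈ B ∧ near y z) := by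
      rw [← Multiset.count_filter_of_pos (p := fun z => z ∈ B ∧ near y z) ⟨hDB h.2.1, hyy y⟩]
      exact Multiset.count_le_card _ _
    have h3 : Multiset.card (S.filter fun z => z ∈ B ∧ near y z) ≤ 1 := by
      convert h.2.2
    omega
  · rw [Multiset.count_eq_zero_of_notMem hy]
    exact Nat.zero_le _

end gen

/-- superadditivity of the integral -/
lemma sum_lint_le {Y : Type} [MeasurableSpace Y] (μ : Measure Y) {ι : Type} (s : Finset ι)
    (f : ι → Y → ℝ≥0∞) : ∑ i ∈ s, ∫⁻ y, f i y ∂μ ≤ ∫⁻ y, ∑ i ∈ s, f i y ∂μ := by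
  classical
  induction s using Finset.induction_on with
  | empty => simp
  | insert a s ha ih =>
    simp only [Finset.sum_insert ha]
    exact (add_le_add le_rfl ih).trans (le_lintegral_add _ _)

theorem main : S_CAPT → S_FIB → S_TF → S_BLK → S_LG → S_LE := by
  intro hCAPT hFIB hTF hBLK hLG n L b r μ γ₀ _ v q hn hμ hv hγ hCap hq hL hr hrb F hF
  classical
  obtain ⟨hTvol, hTpr, hTadd, -, -, -, -, hT⟩ := hTF n L
  obtain ⟨hvm, -⟩ := hT v hv
  obtain ⟨hB1, hB2, -, -, -⟩ := hBLK n L b q (by omega) hL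
  obtain ⟨-, -, -, -, -, hCvol, hCint⟩ := hLG n L b r q hn hq hL hr hrb
  obtain ⟨-, -, -, -, hF2, -, -, ⟨CC, cc, hCC, hcc, hbd⟩, -, -, -, -⟩ :=
    Pool.Agent.W571.CB.La.ebc (Tor n L) volume F F hF hF
  obtain ⟨hsm, hvp⟩ := vp_eq (X := Tor n L) volume hF (fun x y => v (tdist x y)) hvm
  set Bk : (Fin n → Fin q) → Set (Tor n L) := fun i => blk n L b (fun c => (i c : ℕ)) with hBk
  set Dk : (Fin n → Fin q) → Set (Tor n L) := fun i =>
    blk n L b (fun c => (i c : ℕ)) \ bdr n L b r (fun c => (i c : ℕ)) with hDk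
  have hDB : ∀ i, Dk i ⊆ Bk i := fun i => Set.sdiff_subset
  have hnn : ∀ y : Tor n L, nr r y y := by
    intro y c
    rw [sub_self, norm_zero]
    linarith
  have hDC : ∀ i, ∀ y ∈ Dk i, Cr r y ⊆ Bk i := by
    intro i y hy
    by_contra hc
    exact hy.2 ⟨hy.1, hc⟩
  have hrL : 2 * r < L := by
    have : (2 : ℝ) ≤ q := by exact_mod_cast hq
    nlinarith
  -- the pointwise inequality
  have pt : ∀ γ : Cf (Tor n L), ENNReal.ofReal γ₀ * ∑ i : Fin n → Fin q,
      ((iso (Bk i) (Dk i) (nr r) (ms γ)).map fun y => ‖av volume (Cr r y) F (ms γ)‖ₑ ^ 2).sum ≤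
      ken1 (ENNReal.ofReal μ) (fun _ => 0) (fun x => F (x ::ₘ ms γ)) +
        2⁻¹ * ((ms γ).map fun y => ∫⁻ x, v (tdist x y) * ‖F (x ::ₘ ms γ)‖ₑ ^ 2).sum := by
    intro γ
    set S := ms γ with hS
    set f : Tor n L → ℂ := fun x => F (x ::ₘ S) with hf
    have hfm : Measurable f := hF2.comp (measurable_prodMk_right (y := γ))
    have hfb : ∃ B : ℝ, ∀ x, ‖f x‖ ≤ B := ⟨CC * cc ^ Multiset.card S, fun x => hbd x _⟩
    set Gi : (Fin n → Fin q) → Finset (Tor n L) := fun i =>
      ⟨iso (Bk i) (Dk i) (nr r) S, nodup_iso (hDB i) hnn⟩ with hGi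
    have hmem : ∀ i y, y ∈ Gi i → y ∈ S ∧ y ∈ Dk i ∧
        ∀ y' ∈ S, y' ∈ Bk i → nr r y y' → y' = y := by
      intro i y hy
      obtain ⟨a1, a2, a3⟩ := mem_iso (show y ∈ iso (Bk i) (Dk i) (nr r) S from hy)
      exact ⟨a1, a2, fun y' h1 h2 h3 => a3 y' h1 h2 h3 (hDB i) (hnn y)⟩
    have hdisj : Set.PairwiseDisjoint (↑(Finset.univ : Finset (Fin n → Fin q))) Gi := by
      intro i _ j _ hij
      rw [Function.onFun, Finset.disjoint_left]
      intro y hyi hyj
      exact hij ((hB2 y).unique (hDB i (hmem i y hyi).2.1) (hDB j (hmem j y hyj).2.1))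
    set G : Finset (Tor n L) := Finset.univ.biUnion Gi with hG
    have hsumG : ∀ φ : Tor n L → ℝ≥0∞, ∑ i : Fin n → Fin q,
        ((iso (Bk i) (Dk i) (nr r) S).map φ).sum = ∑ y ∈ G, φ y := by
      intro φ
      rw [hG, Finset.sum_biUnion hdisj]
      rfl
    have hcubes : ∀ y ∈ G, ∀ y' ∈ G, y ≠ y' → ∀ z ∈ cube n r, ∀ z' ∈ cube n r,
        y + pr L z ≠ y' + pr L z' := by
      intro y hy y' hy' hne z hz z' hz' heq
      rw [hG, Finset.mem_biUnion] at hy hy'
      obtain ⟨i, -, hyi⟩ := hy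
      obtain ⟨j, -, hyj⟩ := hy'
      obtain ⟨a1, a2, a3⟩ := hmem i y hyi
      obtain ⟨b1, b2, b3⟩ := hmem j y' hyj
      have c1 : y + pr L z ∈ Bk i := hDC i y a2 ⟨z, hz, rfl⟩
      have c2 : y' + pr L z' ∈ Bk j := hDC j y' b2 ⟨z', hz', rfl⟩
      rw [heq] at c1
      have hij : i = j := (hB2 _).unique c1 c2
      subst hij
      refine hne (a3 y' b1 (hDB i b2) ?_).symm
      intro c
      have h1 : y c - y' c = ((z' c - z c : ℝ) : AddCircle L) := by
        have h2 := congrFun heq c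
        simp only [Pi.add_apply, pr] at h2
        rw [AddCircle.coe_sub]
        rw [sub_eq_sub_iff_add_eq_add, h2, add_comm]
      rw [h1]
      have h3 : ‖((z' c - z c : ℝ) : AddCircle L)‖ ≤ ‖z' c - z c‖ := QuotientAddGroup.norm_mk_le_norm
      refine h3.trans ?_
      rw [Real.norm_eq_abs]
      have h4 := hz c
      have h5 := hz' c
      rw [abs_le] at h4 h5 ⊢
      constructor <;> linarith [h4.1, h4.2, h5.1, h5.2]
    have hcap := hCAPT n L μ γ₀ r v G f hμ.le hγ hr hrL hv hCap hfm hfb hcubes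
    have hav : ∀ y : Tor n L, ‖av volume (Cr r y) F S‖ₑ ^ 2 =
        ‖(((2 * r) ^ n : ℝ) : ℂ)⁻¹ * ∫ z in cube n r, f (y + pr L z)‖ₑ ^ 2 := by
      intro y
      unfold av
      rw [hCvol y, ENNReal.toReal_ofReal (by positivity), ← hCint f y hfm hfb]
    rw [hsumG (fun y => ‖av volume (Cr r y) F S‖ₑ ^ 2)]
    simp only [hav]
    refine hcap.trans ?_
    unfold ken1
    simp only [zero_mul, lintegral_zero, mul_zero, add_zero]
    refine add_le_add le_rfl (mul_le_mul' le_rfl ?_)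
    refine sum_le_of_nodup (fun y hy => ?_) _
    rw [hG, Finset.mem_biUnion] at hy
    obtain ⟨i, -, hyi⟩ := hy
    exact (hmem i y hyi).1
  have hK : Measurable (fun _ : Fin n → ℝ => (0 : ℝ≥0∞)) := measurable_const
  calc ENNReal.ofReal γ₀ * ∑ i : Fin n → Fin q, ∫⁻ γ,
      ((iso (Bk i) (Dk i) (nr r) (ms γ)).map fun y => ‖av volume (Cr r y) F (ms γ)‖ₑ ^ 2).sum
        ∂(lam (volume : Measure (Tor n L)))
      ≤ ENNReal.ofReal γ₀ * ∫⁻ γ, ∑ i : Fin n → Fin q,
      ((iso (Bk i) (Dk i) (nr r) (ms γ)).map fun y => ‖av volume (Cr r y) F (ms γ)‖ₑ ^ 2).sum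
        ∂(lam (volume : Measure (Tor n L))) := mul_le_mul' le_rfl (sum_lint_le _ _ _)
    _ ≤ ∫⁻ γ, ENNReal.ofReal γ₀ * ∑ i : Fin n → Fin q,
      ((iso (Bk i) (Dk i) (nr r) (ms γ)).map fun y => ‖av volume (Cr r y) F (ms γ)‖ₑ ^ 2).sum
        ∂(lam (volume : Measure (Tor n L))) := lintegral_const_mul_le _ _
    _ ≤ ∫⁻ γ, (ken1 (ENNReal.ofReal μ) (fun _ => 0) (fun x => F (x ::ₘ ms γ)) +
        2⁻¹ * ((ms γ).map fun y => ∫⁻ x, v (tdist x y) * ‖F (x ::ₘ ms γ)‖ₑ ^ 2).sum)
        ∂(lam (volume : Measure (Tor n L))) := lintegral_mono pt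
    _ = en (ENNReal.ofReal μ) (fun _ => 0) v F := by
        rw [lintegral_add_right _ (hsm.const_mul _), hFIB n L _ _ hK F hF,
          lintegral_const_mul _ hsm, hvp]
        rfl

end Pool.Agent.W431.CC.LE
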